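import Mathlib

namespace Pool.Agent.H.MP_46a37f_co
open Finset

def E (k : ℕ) (s : Multiset ℕ) : Multiset ℕ := (s.powersetCard k).map Multiset.prod

lemma E_cons (k a : ℕ) (s : Multiset ℕ) :
    E (k + 1) (a ::ₘ s) = E (k + 1) s + (E k s).map (a * ·) := by
  simp [E, Multiset.powersetCard_cons, Multiset.map_map, Function.comp_def]

lemma E_one (s : Multiset ℕ) : E 1 s = s := by
  simp [E, Multiset.powersetCard_one, Multiset.map_map, Function.comp_def]

lemma mem_E {k y : ℕ} {s : Multiset ℕ} : y ∈ E k s ↔ ∃ r ≤ s, r.card = k ∧ r.prod = y := by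
  simp [E, Multiset.mem_powersetCard, and_assoc]

lemma E_mono (k : ℕ) {s t : Multiset ℕ} (h : s ≤ t) : E k s ≤ E k t :=
  Multiset.map_le_map (Multiset.powersetCard_mono k h)

lemma E_small {k : ℕ} {s : Multiset ℕ} (h : s.card < k) : E k s = 0 := by
  simp [E, Multiset.powersetCard_eq_empty k h]

lemma step (k x : ℕ) (u : Multiset ℕ) (hu : ∀ y ∈ u, 0 < y) (b : Multiset ℕ) :
    (∀ y ∈ b, x < y) → (E (k + 1) (b + u)).count x = (E (k + 1) u).count x := by
  induction b using Multiset.induction_on with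
  | empty => simp
  | cons y b ih =>
    intro hb
    rw [Multiset.cons_add, E_cons, Multiset.count_add,
      ih fun z hz => hb z (Multiset.mem_cons_of_mem hz)]
    have : Multiset.count x ((E k (b + u)).map (y * ·)) = 0 := by
      rw [Multiset.count_eq_zero, Multiset.mem_map]
      rintro ⟨P, hP, rfl⟩
      obtain ⟨r, hr, -, rfl⟩ := mem_E.1 hP
      have hp : 0 < r.prod := Multiset.prod_pos fun z hz => by
        rcases Multiset.mem_add.1 (Multiset.mem_of_le hr hz) with h | h
        · exact lt_of_le_of_lt (Nat.zero_le _) (hb z (Multiset.mem_cons_of_mem h))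
        · exact hu z h
      have := hb y (Multiset.mem_cons_self _ _)
      nlinarith
    omega

lemma key (k : ℕ) (s t : Multiset ℕ) (ps : ∀ y ∈ s, 0 < y)
    (hs : Multiset.replicate k 1 ≤ s) (ht : Multiset.replicate k 1 ≤ t)
    (h : E (k + 1) s = E (k + 1) t) (x : ℕ) (hx : x ∈ s - t) (hm : ∀ y ∈ t - s, x ≤ y) :
    False := by
  have hlt : ∀ y ∈ t - s, x < y := by
    intro y hy
    refine lt_of_le_of_ne (hm y hy) ?_
    rintro rfl
    rw [← Multiset.one_le_count_iff_mem, Multiset.count_sub] at hx hy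
    omega
  have e1 : t - s + s ∩ t = t := by rw [Multiset.inter_comm, Multiset.sub_add_inter]
  have pu : ∀ y ∈ s ∩ t, 0 < y := fun y hy => ps y (Multiset.mem_inter.1 hy).1
  have h1 := step k x (s ∩ t) pu (t - s) hlt
  rw [e1] at h1
  have h2 : x ::ₘ (s ∩ t) ≤ s := by
    conv_rhs => rw [← Multiset.sub_add_inter s t]
    rw [← Multiset.singleton_add]
    exact Multiset.add_le_add_right (Multiset.singleton_le.2 hx)
  have h3 := Multiset.count_le_of_le x (E_mono (k + 1) h2)
  rw [E_cons, Multiset.count_add] at h3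
  have h4 : 0 < Multiset.count x ((E k (s ∩ t)).map (x * ·)) := by
    rw [Multiset.count_pos, Multiset.mem_map]
    exact ⟨1, mem_E.2 ⟨_, Multiset.le_inter hs ht, by simp, by simp⟩, by simp⟩
  rw [h] at h3
  omega

lemma eq_of_sub {s t : Multiset ℕ} (h : s - t + (t - s) = 0) : s = t := by
  ext a
  have := congrArg (Multiset.count a) h
  simp only [Multiset.count_add, Multiset.count_sub, Multiset.count_zero] at this
  omega

lemma inj1 (k : ℕ) (s t : Multiset ℕ) (ps : ∀ y ∈ s, 0 < y) (pt : ∀ y ∈ t, 0 < y)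
    (hs : Multiset.replicate k 1 ≤ s) (ht : Multiset.replicate k 1 ≤ t)
    (h : E (k + 1) s = E (k + 1) t) : s = t := by
  by_contra hne
  have hne' : (s - t + (t - s)).toFinset.Nonempty := by
    rw [Multiset.toFinset_nonempty]; exact fun h0 => hne (eq_of_sub h0)
  obtain ⟨x, hx, hm⟩ := Finset.exists_min_image _ id hne'
  simp only [Multiset.mem_toFinset, Multiset.mem_add, id] at hx hm
  rcases hx with hx | hx
  · exact key k s t ps hs ht h x hx fun y hy => hm y (Or.inr hy)
  · exact key k t s pt ht hs h.symm x hx fun y hy => hm y (Or.inl hy)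

lemma ones1 (r : Multiset ℕ) : r.prod = 1 → r.count 1 = r.card := by
  induction r using Multiset.induction_on with
  | empty => simp
  | cons a r ih =>
    intro h
    rw [Multiset.prod_cons] at h
    obtain ⟨rfl, h2⟩ := mul_eq_one.1 h
    simp [ih h2]

lemma ones2 (r : Multiset ℕ) : r.prod.Prime → r.card ≤ r.count 1 + 1 := by
  induction r using Multiset.induction_on with
  | empty => simp
  | cons a r ih =>
    intro h
    rw [Multiset.prod_cons, Nat.prime_mul_iff] at h
    rcases h with ⟨-, h2⟩ | ⟨h1, rfl⟩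
    · have := ones1 r h2
      have := Multiset.count_le_count_cons (1 : ℕ) a r
      rw [Multiset.card_cons]; omega
    · have := ih h1
      simp; omega

lemma ones {k p : ℕ} (hp : p = 1 ∨ p.Prime) {s : Multiset ℕ} (h : p ∈ E (k + 1) s) :
    Multiset.replicate k 1 ≤ s := by
  obtain ⟨r, hr, hc, rfl⟩ := mem_E.1 h
  rw [← Multiset.le_count_iff_replicate_le]
  have := Multiset.count_le_of_le 1 hr
  rcases hp with hp | hp
  · have := ones1 r hp; omega
  · have := ones2 r hp; omega

/-- power sums -/
def S (m : ℕ) (s : Multiset ℕ) : ℕ := (s.map (· ^ m)).sum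

lemma S_add (m : ℕ) (s t : Multiset ℕ) : S m (s + t) = S m s + S m t := by simp [S]

lemma S_sq (m : ℕ) (s : Multiset ℕ) : S m s ^ 2 = S (2 * m) s + 2 * S m (E 2 s) := by
  induction s using Multiset.induction_on with
  | empty => rw [E_small (by simp)]; simp [S]
  | cons a s ih =>
    have e : S m (s.map (a * ·)) = a ^ m * S m s := by
      simp [S, Multiset.map_map, Function.comp_def, mul_pow, Multiset.sum_map_mul_left]
    rw [E_cons, E_one, S_add, e]
    have e2 : ∀ j, S j (a ::ₘ s) = a ^ j + S j s := fun j => by simp [S]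
    rw [e2, e2, add_sq, ih]; ring

lemma bern (z N : ℕ) : z ^ N * (z + N) ≤ z * (z + 1) ^ N := by
  induction N with
  | zero => simp
  | succ N ih =>
    calc z ^ (N + 1) * (z + (N + 1)) = z ^ N * (z * (z + N + 1)) := by ring
      _ ≤ z ^ N * ((z + N) * (z + 1)) := Nat.mul_le_mul_left _ (by nlinarith)
      _ = z ^ N * (z + N) * (z + 1) := by ring
      _ ≤ z * (z + 1) ^ N * (z + 1) := Nat.mul_le_mul_right _ ih
      _ = _ := by ring

lemma key2 (s t : Multiset ℕ) (ps : ∀ y ∈ s, 0 < y) (h : ∀ i, S (2 ^ i) s = S (2 ^ i) t)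
    (x : ℕ) (hx : x ∈ s - t) (hm : ∀ y ∈ t - s, y ≤ x) : False := by
  have hx0 : 0 < x := ps x (Multiset.mem_of_le (Multiset.sub_le_self _ _) hx)
  obtain ⟨z, rfl⟩ : ∃ z, x = z + 1 := ⟨x - 1, by omega⟩
  have hlt : ∀ y ∈ t - s, y ≤ z := by
    intro y hy
    have h1 := hm y hy
    have : y ≠ z + 1 := by
      rintro rfl
      rw [← Multiset.one_le_count_iff_mem, Multiset.count_sub] at hx hy
      omega
    omega
  set c := (t - s).card
  set N := 2 ^ (c * z) with hN
  have hN1 : c * z < N := Nat.lt_two_pow_self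
  have h1 := h (c * z)
  rw [← hN, ← Multiset.sub_add_inter s t, S_add] at h1
  conv_rhs at h1 => rw [← Multiset.sub_add_inter t s, S_add, Multiset.inter_comm t s]
  have h2 : (z + 1) ^ N ≤ S N (s - t) :=
    Multiset.single_le_sum (fun _ _ => Nat.zero_le _) _ (Multiset.mem_map_of_mem _ hx)
  have h3 : S N (t - s) ≤ c * z ^ N := by
    have := Multiset.sum_le_card_nsmul ((t - s).map (· ^ N)) (z ^ N) (by
      intro y hy
      obtain ⟨w, hw, rfl⟩ := Multiset.mem_map.1 hy
      exact Nat.pow_le_pow_left (hlt w hw) _)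
    simpa [S] using this
  have h4 : (z + 1) ^ N ≤ c * z ^ N := by omega
  have h5 := bern z N
  rcases Nat.eq_zero_or_pos z with rfl | hz
  · rw [zero_pow (by omega)] at h4; simp at h4
  · have hp : 0 < z ^ N := pow_pos hz _
    have : z ^ N * (z + N) ≤ z ^ N * (c * z) := by nlinarith
    have := Nat.le_of_mul_le_mul_left this hp
    omega

lemma inj2 (s t : Multiset ℕ) (ps : ∀ y ∈ s, 0 < y) (pt : ∀ y ∈ t, 0 < y)
    (hs : s.sum = t.sum) (h : E 2 s = E 2 t) : s = t := by
  have H : ∀ i, S (2 ^ i) s = S (2 ^ i) t := by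
    intro i
    induction i with
    | zero => simpa [S] using hs
    | succ i ih =>
      have a := S_sq (2 ^ i) s
      have b := S_sq (2 ^ i) t
      rw [ih, h] at a
      rw [pow_succ']; omega
  by_contra hne
  have hne' : (s - t + (t - s)).toFinset.Nonempty := by
    rw [Multiset.toFinset_nonempty]; exact fun h0 => hne (eq_of_sub h0)
  obtain ⟨x, hx, hm⟩ := Finset.exists_max_image _ id hne'
  simp only [Multiset.mem_toFinset, Multiset.mem_add, id] at hx hm
  rcases hx with hx | hx
  · exact key2 s t ps H x hx fun y hy => hm y (Or.inr hy)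
  · exact key2 t s pt (fun i => (H i).symm) x hx fun y hy => hm y (Or.inl hy)

lemma add_part (a n : ℕ) (ha : 0 < a) (f : Multiset ℕ → ℤ) (hf : ∀ s, a ∉ s → f s = 0) :
    ∑ l : (n + a).Partition, f l.parts = ∑ l : n.Partition, f (a ::ₘ l.parts) := by
  symm
  let e : n.Partition → (n + a).Partition := fun l =>
    ⟨a ::ₘ l.parts, fun {i} hi => by
      rcases Multiset.mem_cons.1 hi with rfl | hi
      · exact ha
      · exact l.parts_pos hi, by rw [Multiset.sum_cons, l.parts_sum, add_comm]⟩
  refine Finset.sum_of_injOn e ?_ (fun _ _ => by simp) ?_ (fun _ _ => rfl)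
  · intro l _ l' _ h
    have := congrArg Nat.Partition.parts h
    exact Nat.Partition.ext ((Multiset.cons_inj_right a).1 this)
  · intro l _ hl
    apply hf
    intro hm
    obtain ⟨t, ht⟩ := Multiset.exists_cons_of_mem hm
    apply hl
    have hs := l.parts_sum
    rw [ht, Multiset.sum_cons] at hs
    refine ⟨⟨t, fun {i} hi => l.parts_pos (ht ▸ Multiset.mem_cons_of_mem hi), by omega⟩,
      by simp, Nat.Partition.ext ht.symm⟩

def F (k j n : ℕ) : ℤ := ∑ l : n.Partition, ((E k l.parts).count j : ℤ)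

def N (j n : ℕ) : ℤ := ∑ l : n.Partition, (l.parts.count j : ℤ)

lemma img (k j n : ℕ)
    (h : ∀ l l' : n.Partition, j ∈ E k l.parts → E k l.parts = E k l'.parts → l = l') :
    ∑ μ ∈ ((univ : Finset n.Partition).filter fun l => k ≤ l.parts.card).image
      (fun l => E k l.parts), (μ.count j : ℤ) = F k j n := by
  rw [Finset.sum_image_of_pairwise_eq_zero]
  · refine Finset.sum_filter_of_ne fun l _ hl => ?_
    by_contra hc
    rw [E_small (by omega)] at hl
    simp at hl
  · intro l _ l' _ hne he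
    by_contra h0
    exact hne (h l l' (Multiset.count_ne_zero.1 (by exact_mod_cast h0)) he)

lemma F_rec {p : ℕ} (hp : p = 1 ∨ p.Prime) (k n : ℕ) :
    F (k + 2) p (n + 1) - F (k + 2) p n = F (k + 1) p n := by
  have := add_part 1 n one_pos (fun s => ((E (k + 2) s).count p : ℤ)) (by
    intro s hs
    have : p ∉ E (k + 2) s := fun h =>
      hs (Multiset.mem_of_le (ones hp h) (by simp))
    simp [Multiset.count_eq_zero.2 this])
  unfold F
  rw [this, ← Finset.sum_sub_distrib]
  refine Finset.sum_congr rfl fun l _ => ?_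
  rw [E_cons]; simp

lemma F_iter {p : ℕ} (hp : p = 1 ∨ p.Prime) (k : ℕ) :
    (fwdDiff 1)^[k] (F (k + 1) p) = N p := by
  induction k with
  | zero => ext n; simp [F, N, E_one]
  | succ k ih =>
    rw [Function.iterate_succ_apply, ← ih]
    congr 1
    ext n
    exact F_rec hp k n

lemma cnt_mul (a b : ℕ) (ha : 0 < a) (s : Multiset ℕ) :
    (s.map (a * ·)).count (a * b) = s.count b :=
  Multiset.count_map_eq_count' _ _ (mul_right_injective₀ ha.ne') _

lemma cnt_zero (a j : ℕ) (ha : ¬ a ∣ j) (s : Multiset ℕ) : (s.map (a * ·)).count j = 0 := by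
  rw [Multiset.count_eq_zero, Multiset.mem_map]
  rintro ⟨b, -, rfl⟩
  exact ha (dvd_mul_right _ _)

lemma cnt_xy (x y : ℕ) (hx : 1 < x) (hy : 1 < y) (hxy : x ≠ y)
    (hd : ∀ a, a ∣ x * y → a = 1 ∨ a = x ∨ a = y ∨ a = x * y) (s : Multiset ℕ) :
    ((E 2 s).count (x * y) : ℤ) = s.count 1 * s.count (x * y) + s.count x * s.count y := by
  have n1 : x * y ≠ 1 := by nlinarith
  have n2 : x * y ≠ x := by nlinarith
  have n3 : x * y ≠ y := by nlinarith
  induction s using Multiset.induction_on with
  | empty => rw [E_small (by simp)]; simp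
  | cons a s ih =>
    rw [E_cons, E_one, Multiset.count_add, Nat.cast_add, ih]
    by_cases ha : a ∣ x * y
    · rcases hd a ha with rfl | rfl | rfl | rfl
      · simp [Multiset.count_cons, n1, hx.ne', hy.ne']; ring
      · rw [cnt_mul a y (by omega)]
        simp [Multiset.count_cons, n2, hx.ne, hxy.symm]; ring
      · have := cnt_mul a x (by omega) s
        rw [mul_comm a x] at this
        rw [this]
        simp [Multiset.count_cons, n3, hy.ne, hxy]; ring
      · have := cnt_mul (x * y) 1 (by positivity) s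
        rw [mul_one] at this
        rw [this]
        simp [Multiset.count_cons, n1.symm, n2.symm, n3.symm]; ring
    · have m1 : 1 ≠ a := by rintro rfl; simp at ha
      have m2 : x ≠ a := by rintro rfl; simp at ha
      have m3 : y ≠ a := by rintro rfl; simp at ha
      have m4 : x * y ≠ a := by rintro rfl; simp at ha
      rw [cnt_zero a _ ha]
      simp [Multiset.count_cons, m1, m2, m3, m4]

lemma cnt_xx (x : ℕ) (hx : 1 < x)
    (hd : ∀ a, a ∣ x * x → a = 1 ∨ a = x ∨ a = x * x) (s : Multiset ℕ) :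
    2 * ((E 2 s).count (x * x) : ℤ) =
      2 * (s.count 1 * s.count (x * x)) + s.count x * (s.count x - 1) := by
  have n1 : x * x ≠ 1 := by nlinarith
  have n2 : x * x ≠ x := by nlinarith
  induction s using Multiset.induction_on with
  | empty => rw [E_small (by simp)]; simp
  | cons a s ih =>
    rw [E_cons, E_one, Multiset.count_add, Nat.cast_add, mul_add, ih]
    by_cases ha : a ∣ x * x
    · rcases hd a ha with rfl | rfl | rfl
      · simp [Multiset.count_cons, n1, hx.ne']; ring
      · rw [cnt_mul a a (by omega)]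
        simp [Multiset.count_cons, n2, hx.ne]; ring
      · have := cnt_mul (x * x) 1 (by positivity) s
        rw [mul_one] at this
        rw [this]
        simp [Multiset.count_cons, n1.symm, n2.symm]; ring
    · have m1 : 1 ≠ a := by rintro rfl; simp at ha
      have m2 : x ≠ a := by rintro rfl; simp at ha
      have m4 : x * x ≠ a := by rintro rfl; simp at ha
      rw [cnt_zero a _ ha]
      simp [Multiset.count_cons, m1, m2, m4]

def P (x y n : ℕ) : ℤ := ∑ l : n.Partition, (l.parts.count x * l.parts.count y : ℤ)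

def Q (x n : ℕ) : ℤ := ∑ l : n.Partition, (l.parts.count x * (l.parts.count x - 1) : ℤ)

lemma P_comm (x y n : ℕ) : P x y n = P y x n := by simp [P, mul_comm]

lemma P_rec (x y n : ℕ) (hx : 0 < x) (hxy : y ≠ x) : P x y (n + x) = P x y n + N y n := by
  have := add_part x n hx (fun s => (s.count x * s.count y : ℤ)) (by
    intro s hs; simp [Multiset.count_eq_zero.2 hs])
  unfold P N
  rw [this, ← Finset.sum_add_distrib]
  refine Finset.sum_congr rfl fun l _ => ?_
  simp [Multiset.count_cons, hxy]; ring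

lemma Q_rec (x n : ℕ) (hx : 0 < x) : Q x (n + x) = Q x n + 2 * N x n := by
  have := add_part x n hx (fun s => (s.count x * (s.count x - 1) : ℤ)) (by
    intro s hs; simp [Multiset.count_eq_zero.2 hs])
  unfold Q N
  rw [this, Finset.mul_sum, ← Finset.sum_add_distrib]
  refine Finset.sum_congr rfl fun l _ => ?_
  simp; ring

lemma F_xy (x y : ℕ) (hx : 1 < x) (hy : 1 < y) (hxy : x ≠ y)
    (hd : ∀ a, a ∣ x * y → a = 1 ∨ a = x ∨ a = y ∨ a = x * y) (n : ℕ) :
    F 2 (x * y) n = P 1 (x * y) n + P x y n := by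
  unfold F P
  rw [← Finset.sum_add_distrib]
  exact Finset.sum_congr rfl fun l _ => cnt_xy x y hx hy hxy hd _

lemma F_xx (x : ℕ) (hx : 1 < x) (hd : ∀ a, a ∣ x * x → a = 1 ∨ a = x ∨ a = x * x) (n : ℕ) :
    2 * F 2 (x * x) n = 2 * P 1 (x * x) n + Q x n := by
  unfold F P Q
  rw [Finset.mul_sum, Finset.mul_sum, ← Finset.sum_add_distrib]
  exact Finset.sum_congr rfl fun l _ => cnt_xx x hx hd _

lemma P_small (n : ℕ) (hn : n < 3) : P 2 3 n = 0 := by
  refine Finset.sum_eq_zero fun l _ => ?_
  have : 3 ∉ l.parts := fun h => by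
    have := Multiset.single_le_sum (fun _ _ => Nat.zero_le _) _ h
    rw [l.parts_sum] at this; omega
  simp [Multiset.count_eq_zero.2 this]

end Pool.Agent.H.MP_46a37f_co
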